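import Pool.Agent.K4H26.RO.Grp

/-!
# Sets of strong measure zero
-/

set_option autoImplicit false

open Set Filter Topology

namespace Pool.Agent.K4H26.RO

/-- `X` has strong measure zero: for all positive `ε n` it is covered by intervals of the lengths
`ε n`. -/
def StrongMeasureZero (X : Set ℝ) : Prop :=
  ∀ ε : ℕ → ℝ, (∀ n, 0 < ε n) → ∃ a : ℕ → ℝ, X ⊆ ⋃ n, Ioo (a n) (a n + ε n)

/-- The Borel conjecture: every set of real numbers of strong measure zero is countable. -/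
def BorelConjecture : Prop := ∀ X : Set ℝ, StrongMeasureZero X → X.Countable

lemma S1_of_countable {X : Set ℝ} (hX : X.Countable) : S1 (Om X) (Om X) := by
  intro 𝒰 h𝒰
  have hne : Nonempty X := by
    by_contra h
    rw [not_nonempty_iff] at h
    obtain ⟨U, hU, -⟩ := (h𝒰 0).2 ∅ finite_empty
    have : U = univ := by ext x; exact h.elim x
    exact (h𝒰 0).1.1.2 (this ▸ hU)
  have hc : Countable X := hX.to_subtype
  obtain ⟨d, hd⟩ := exists_surjective_nat X
  choose U hU hdU using fun n => (h𝒰 n).2 (d '' Iic n) ((finite_Iic n).image d)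
  refine ⟨U, hU, ⟨⟨?_, ?_⟩, ?_⟩, fun F hF => ?_⟩
  · refine eq_univ_of_forall fun x => ?_
    obtain ⟨n, rfl⟩ := hd x
    exact ⟨U n, ⟨n, rfl⟩, hdU n ⟨n, mem_Iic.2 le_rfl, rfl⟩⟩
  · rintro ⟨n, hn⟩
    exact (h𝒰 n).1.1.2 (hn ▸ hU n)
  · rintro _ ⟨n, rfl⟩
    exact (h𝒰 n).1.2 _ (hU n)
  · choose j hj using hd
    obtain ⟨N, hN⟩ := (hF.image j).bddAbove
    exact ⟨U N, ⟨N, rfl⟩, fun x hx => hdU N ⟨j x, hN ⟨x, hx, rfl⟩, hj x⟩⟩

lemma smz_of_S1 {X : Set ℝ} (h : S1 (Om X) (OmGp X)) : StrongMeasureZero X := by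
  intro ε hε
  by_cases hex : ∃ (n k : ℕ) (a : ℕ → ℝ), X ⊆ ⋃ j ∈ Iio k, Ioo (a j) (a j + ε (Nat.pair n j))
  · obtain ⟨n, k, a, ha⟩ := hex
    refine ⟨fun i => a (Nat.unpair i).2, fun x hx => ?_⟩
    obtain ⟨j, -, hj⟩ := mem_iUnion₂.1 (ha hx)
    refine mem_iUnion.2 ⟨Nat.pair n j, ?_⟩
    dsimp only
    rw [Nat.unpair_pair]
    exact hj
  · push Not at hex
    have hcap : ∀ (n : ℕ) (F : Set X), F.Finite → ∃ (k : ℕ) (a : ℕ → ℝ),
        F ⊆ (↑) ⁻¹' ⋃ j ∈ Iio k, Ioo (a j) (a j + ε (Nat.pair n j)) := by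
      intro n F hF
      rcases F.eq_empty_or_nonempty with rfl | ⟨x₀, -⟩
      · exact ⟨0, fun _ => 0, empty_subset _⟩
      · obtain ⟨k, c, hc⟩ : ∃ (k : ℕ) (c : ℕ → X), F ⊆ c '' Iio k := by
          obtain ⟨l, hl⟩ := hF.exists_finset_coe
          refine ⟨l.toList.length, fun i => l.toList.getD i x₀, fun x hx => ?_⟩
          have h1 : x ∈ l.toList := by
            rw [Finset.mem_toList, ← Finset.mem_coe, hl]; exact hx
          obtain ⟨i, hi, hix⟩ := List.getElem_of_mem h1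
          exact ⟨i, hi, by dsimp only; rw [List.getD_eq_getElem _ _ hi]; exact hix⟩
        refine ⟨k, fun j => (c j : ℝ) - ε (Nat.pair n j) / 2, fun x hx => ?_⟩
        obtain ⟨j, hj, rfl⟩ := hc hx
        refine mem_iUnion₂.2 ⟨j, hj, ?_, ?_⟩
        · have := hε (Nat.pair n j); linarith
        · have := hε (Nat.pair n j); linarith
    obtain ⟨U, hU, hUr⟩ := h (fun n => {U : Set X | ∃ (k : ℕ) (a : ℕ → ℝ),
        U = (↑) ⁻¹' ⋃ j ∈ Iio k, Ioo (a j) (a j + ε (Nat.pair n j))}) (by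
      intro n
      refine ⟨⟨⟨?_, ?_⟩, ?_⟩, ?_⟩
      · refine eq_univ_of_forall fun x => ?_
        obtain ⟨k, a, ha⟩ := hcap n {x} (finite_singleton x)
        exact ⟨_, ⟨k, a, rfl⟩, ha rfl⟩
      · rintro ⟨k, a, h1⟩
        refine hex n k a fun x hx => ?_
        have : (⟨x, hx⟩ : X) ∈ (univ : Set X) := mem_univ _
        rw [h1] at this
        exact this
      · rintro _ ⟨k, a, rfl⟩
        exact (isOpen_biUnion fun j _ => isOpen_Ioo).preimage continuous_subtype_val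
      · intro F hF
        obtain ⟨k, a, ha⟩ := hcap n F hF
        exact ⟨_, ⟨k, a, rfl⟩, ha⟩)
    choose k a hUa using hU
    refine ⟨fun i => a (Nat.unpair i).1 (Nat.unpair i).2, fun x hx => ?_⟩
    have h1 : (⟨x, hx⟩ : X) ∈ ⋃₀ range U := by rw [hUr.1.1.1]; exact mem_univ _
    obtain ⟨_, ⟨n, rfl⟩, hn⟩ := h1
    rw [hUa] at hn
    obtain ⟨j, -, hj⟩ := mem_iUnion₂.1 hn
    refine mem_iUnion.2 ⟨Nat.pair n j, ?_⟩
    dsimp only
    rw [Nat.unpair_pair]
    exact hj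

/-- `S₁(Ω, Ω)` implies `S₁(Ω, O^{ω-gp})` -/
lemma S1_omgp_of_S1 {X : Type} [TopologicalSpace X] (h : S1 (Om X) (Om X)) :
    S1 (Om X) (OmGp X) := by
  intro 𝒰 h𝒰
  obtain ⟨U, hU, hUr⟩ := h 𝒰 h𝒰
  have hinf : (range U).Infinite := by
    intro hfin
    have hx : ∀ V ∈ range U, ∃ x, x ∉ V := by
      intro V hV
      by_contra hcon
      push Not at hcon
      exact hUr.1.1.2 (eq_univ_of_forall hcon ▸ hV)
    by_cases hX : Nonempty X
    · choose! x hx using hx
      obtain ⟨V, hV, hFV⟩ := hUr.2 (x '' range U) (hfin.image x)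
      exact hx V hV (hFV ⟨V, hV, rfl⟩)
    · rw [not_nonempty_iff] at hX
      obtain ⟨V, hV, -⟩ := hUr.2 ∅ finite_empty
      have : V = univ := by ext y; exact hX.elim y
      exact hUr.1.1.2 (this ▸ hV)
  have h1 : Countable (range U) := (countable_range U).to_subtype
  have h2 : Infinite (range U) := hinf.to_subtype
  obtain ⟨hden⟩ := nonempty_denumerable (range U)
  let E := (Denumerable.eqv (range U)).symm
  have hE : range (fun n => (E n).1) = range U := by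
    ext V
    constructor
    · rintro ⟨n, rfl⟩; exact (E n).2
    · intro hV
      exact ⟨E.symm ⟨V, hV⟩, by simp⟩
  refine ⟨U, hU, hUr.1, Or.inr ⟨fun n => {(E n).1}, fun n => ⟨finite_singleton _,
    singleton_nonempty _⟩, fun m n hmn => ?_, ?_, ?_⟩⟩
  · rw [Set.disjoint_singleton]
    exact fun h3 => hmn (E.injective (Subtype.ext h3))
  · rw [iUnion_singleton_eq_range]
    exact hE
  · have h3 : (fun n => ⋃₀ ({(E n).1} : Set (Set X))) = fun n => (E n).1 := by
      funext n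
      exact sUnion_singleton _
    rw [h3, hE]
    exact hUr

end Pool.Agent.K4H26.RO
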