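import Pool.Agent.K4H26.RO.Sel

/-!
# `S₁(Ω, O^{ω-gp})`
-/

set_option autoImplicit false

open Set Filter Topology

namespace Pool.Agent.K4H26.RO

/-- selection from `ω`-covers without repetition -/
lemma select {X : Type} [TopologicalSpace X] (𝒰 : ℕ → Set (Set X)) (h𝒰 : ∀ n, 𝒰 n ∈ Om X)
    (p : ℕ → X) : ∃ U : ℕ → Set X, (∀ n, U n ∈ 𝒰 n ∧ p n ∈ U n) ∧ Function.Injective U := by
  obtain ⟨U, hU⟩ := exists_rec (α := ℕ) (β := Set X) (· < ·) wellFounded_lt
    (fun n f y => y ∈ 𝒰 n ∧ p n ∈ y ∧ ∀ k < n, y ≠ f k)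
    (by
      rintro n f g hfg y ⟨h1, h2, h3⟩
      exact ⟨h1, h2, fun k hk => by rw [← hfg k hk]; exact h3 k hk⟩)
    (by
      intro n f
      have hx : ∀ k, ∃ x : X, (∃ x, x ∉ f k) → x ∉ f k := by
        intro k
        by_cases h : ∃ x, x ∉ f k
        · obtain ⟨x, hx⟩ := h; exact ⟨x, fun _ => hx⟩
        · exact ⟨p n, fun h' => absurd h' h⟩
      choose x hx using hx
      obtain ⟨y, hy, hFy⟩ := (h𝒰 n).2 (insert (p n) (x '' Iio n)) (((finite_Iio n).image x).insert _)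
      refine ⟨y, hy, hFy (mem_insert _ _), fun k hk h => ?_⟩
      by_cases h' : ∃ x, x ∉ f k
      · exact hx k h' (h ▸ hFy (Or.inr ⟨k, hk, rfl⟩))
      · push Not at h'
        have hy' : y = univ := by rw [h]; exact eq_univ_of_forall h'
        exact (h𝒰 n).1.1.2 (hy' ▸ hy))
  refine ⟨U, fun n => ⟨(hU n).1, (hU n).2.1⟩, fun m n hmn => ?_⟩
  by_contra h
  rcases lt_or_gt_of_ne h with h | h
  · exact (hU n).2.2 m h hmn.symm
  · exact (hU m).2.2 n h hmn

/-- selection from `ω`-covers of the set such that all the tails are covers -/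
lemma IsLuz.select_all {L : Set ℝ} (hL : IsLuz L) (𝒰 : ℕ → Set (Set L)) (h𝒰 : ∀ n, 𝒰 n ∈ Om L) :
    ∃ U : ℕ → Set L, (∀ n, U n ∈ 𝒰 n) ∧ (∀ V, {n | U n = V}.Finite) ∧
      ∀ N, ⋃ n ∈ Ici N, U n = univ := by
  obtain ⟨e, he⟩ : ∃ e : ℕ → ℚ, Function.Surjective e := exists_surjective_nat ℚ
  obtain ⟨U₁, hU₁, hi₁⟩ := select 𝒰 h𝒰
    fun n => (⟨e (Nat.unpair (n / 2)).2, hL.rat _⟩ : L)
  let O : ℕ → Set L := fun N => ⋃ n ∈ {n | N ≤ n ∧ n % 2 = 0}, U₁ n
  have hO : ∀ N, (O N)ᶜ.Countable := by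
    intro N
    refine hL.countable_compl (isOpen_biUnion fun n _ => (h𝒰 n).1.2 _ (hU₁ n).1) fun q => ?_
    obtain ⟨j, rfl⟩ := he q
    have h1 : N ≤ Nat.pair N j := Nat.left_le_pair N j
    refine mem_iUnion₂.2 ⟨2 * Nat.pair N j, ⟨by omega, by omega⟩, ?_⟩
    have h2 := (hU₁ (2 * Nat.pair N j)).2
    have h3 : 2 * Nat.pair N j / 2 = Nat.pair N j := by omega
    rw [h3, Nat.unpair_pair] at h2
    exact h2
  have hD : (insert (⟨((0 : ℚ) : ℝ), hL.rat 0⟩ : L) (⋃ N, (O N)ᶜ)).Countable :=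
    (countable_iUnion hO).insert _
  obtain ⟨d, hd⟩ := hD.exists_eq_range (insert_nonempty _ _)
  obtain ⟨U₂, hU₂, hi₂⟩ := select 𝒰 h𝒰 fun n => d (Nat.unpair (n / 2)).2
  refine ⟨fun n => if n % 2 = 0 then U₁ n else U₂ n, fun n => ?_, fun V => ?_, fun N => ?_⟩
  · dsimp only
    split_ifs
    · exact (hU₁ n).1
    · exact (hU₂ n).1
  · have h1 : {n | U₁ n = V}.Subsingleton := fun a ha b hb => hi₁ (Eq.trans ha (Eq.symm hb))
    have h2 : {n | U₂ n = V}.Subsingleton := fun a ha b hb => hi₂ (Eq.trans ha (Eq.symm hb))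
    refine (h1.finite.union h2.finite).subset fun n hn => ?_
    have hn' : (if n % 2 = 0 then U₁ n else U₂ n) = V := hn
    split_ifs at hn'
    · exact Or.inl hn'
    · exact Or.inr hn'
  · refine eq_univ_of_forall fun x => ?_
    by_cases hx : x ∈ O N
    · obtain ⟨n, ⟨hn1, hn2⟩, hxn⟩ := mem_iUnion₂.1 hx
      refine mem_iUnion₂.2 ⟨n, hn1, ?_⟩
      dsimp only
      rw [if_pos hn2]
      exact hxn
    · have hx' : x ∈ insert (⟨((0 : ℚ) : ℝ), hL.rat 0⟩ : L) (⋃ N, (O N)ᶜ) :=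
        Or.inr (mem_iUnion.2 ⟨N, hx⟩)
      rw [hd] at hx'
      obtain ⟨j, rfl⟩ := hx'
      have h1 : N ≤ Nat.pair N j := Nat.left_le_pair N j
      refine mem_iUnion₂.2 ⟨2 * Nat.pair N j + 1, by rw [mem_Ici]; omega, ?_⟩
      dsimp only
      rw [if_neg (by omega)]
      have h2 := (hU₂ (2 * Nat.pair N j + 1)).2
      have h3 : (2 * Nat.pair N j + 1) / 2 = Nat.pair N j := by omega
      rw [h3, Nat.unpair_pair] at h2
      exact h2

/-- enumeration of the selected sets without repetition -/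
lemma enum {X : Type} (U : ℕ → Set X) (hfin : ∀ V, {n | U n = V}.Finite)
    (htail : ∀ N, ⋃ n ∈ Ici N, U n = univ) :
    ∃ W : ℕ → Set X, Function.Injective W ∧ range W = range U ∧
      ∀ N, ⋃ n ∈ Ici N, W n = univ := by
  have hinf : (range U).Infinite := by
    intro h
    have : (univ : Set ℕ) ⊆ ⋃ V ∈ range U, {n | U n = V} := fun n _ =>
      mem_iUnion₂.2 ⟨U n, ⟨n, rfl⟩, rfl⟩
    exact infinite_univ ((h.biUnion fun V _ => hfin V).subset this)
  have h1 : Countable (range U) := (countable_range U).to_subtype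
  have h2 : Infinite (range U) := hinf.to_subtype
  obtain ⟨hden⟩ := nonempty_denumerable (range U)
  let E := (Denumerable.eqv (range U)).symm
  refine ⟨fun n => (E n).1, fun a b hab => E.injective (Subtype.ext hab), ?_, fun N => ?_⟩
  · ext V
    constructor
    · rintro ⟨n, rfl⟩; exact (E n).2
    · intro hV
      exact ⟨E.symm ⟨V, hV⟩, by simp⟩
  · have hB : (⋃ k ∈ Iio N, {n | U n = (E k).1}).Finite :=
      (finite_Iio N).biUnion fun k _ => hfin _
    obtain ⟨N', hN'⟩ := hB.bddAbove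
    refine eq_univ_of_forall fun x => ?_
    have hx : x ∈ ⋃ n ∈ Ici (N' + 1), U n := by rw [htail]; exact mem_univ x
    obtain ⟨n, hn, hxn⟩ := mem_iUnion₂.1 hx
    have hE : (E (E.symm ⟨U n, mem_range_self n⟩)).1 = U n := by rw [Equiv.apply_symm_apply]
    have hx2 : x ∈ (E (E.symm ⟨U n, mem_range_self n⟩)).1 := by rw [hE]; exact hxn
    refine mem_iUnion₂.2 ⟨E.symm ⟨U n, mem_range_self n⟩, ?_, hx2⟩
    rw [mem_Ici]
    by_contra hlt
    have : n ≤ N' := hN' (mem_iUnion₂.2 ⟨_, not_le.1 hlt, hE.symm⟩)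
    have := mem_Ici.1 hn
    omega

/-- the cut points -/
def cut (g : ℕ → ℕ) : ℕ → ℕ
  | 0 => 0
  | j + 1 => cut g j + 1 + (Finset.range (cut g j + 1)).sup fun m => m + g m

lemma cut_lt (g : ℕ → ℕ) (j : ℕ) : cut g j < cut g (j + 1) := by
  simp only [cut]; omega

lemma cut_mono (g : ℕ → ℕ) : StrictMono (cut g) := strictMono_nat_of_lt_succ (cut_lt g)

lemma cut_large (g : ℕ → ℕ) (j m : ℕ) (h : m ≤ cut g j) : m + g m < cut g (j + 1) := by
  have hm : m ∈ Finset.range (cut g j + 1) := Finset.mem_range.2 (Nat.lt_succ_of_le h)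
  have := Finset.le_sup (f := fun m => m + g m) hm
  simp only [cut]
  omega

lemma exists_cut (g : ℕ → ℕ) (m : ℕ) : ∃ j, cut g j ≤ m ∧ m < cut g (j + 1) := by
  have hex : ∃ j, m < cut g (j + 1) := ⟨m, lt_of_lt_of_le (Nat.lt_succ_self m) ((cut_mono g).le_apply)⟩
  classical
  refine ⟨Nat.find hex, ?_, Nat.find_spec hex⟩
  rcases Nat.eq_zero_or_pos (Nat.find hex) with h | h
  · rw [h]; exact Nat.zero_le _
  · have := Nat.find_min hex (m := Nat.find hex - 1) (by omega)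
    rw [not_lt] at this
    have e : Nat.find hex - 1 + 1 = Nat.find hex := by omega
    rwa [e] at this

lemma cuts {X : Type} (W : ℕ → Set X) (g : ℕ → ℕ)
    (hg : ∀ F : Set X, F.Finite → {m | F ⊆ ⋃ n ∈ Icc m (m + g m), W n}.Infinite) :
    ∃ M : ℕ → ℕ, StrictMono M ∧
      ∀ F : Set X, F.Finite → {i | F ⊆ ⋃ n ∈ Ico (M i) (M (i + 1)), W n}.Infinite := by
  have hA : ∀ F : Set X, F.Finite →
      {j | F ⊆ ⋃ n ∈ Ico (cut g j) (cut g (j + 2)), W n}.Infinite := by
    intro F hF hcon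
    obtain ⟨J, hJ⟩ := hcon.bddAbove
    obtain ⟨m, hm, hmJ⟩ := (hg F hF).exists_gt (cut g (J + 1))
    obtain ⟨j, hj1, hj2⟩ := exists_cut g m
    have h1 : J < j := by
      by_contra h
      have := (cut_mono g).monotone (show j + 1 ≤ J + 1 by omega)
      omega
    have hm' : F ⊆ ⋃ n ∈ Icc m (m + g m), W n := hm
    have h2 : j ≤ J := hJ (hm'.trans (iUnion₂_subset fun n hn x hx => mem_iUnion₂.2
      ⟨n, ⟨hj1.trans hn.1, lt_of_le_of_lt hn.2 (cut_large g (j + 1) m hj2.le)⟩, hx⟩))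
    omega
  by_cases h0 : ∀ F : Set X, F.Finite →
      {i | F ⊆ ⋃ n ∈ Ico (cut g (2 * i)) (cut g (2 * (i + 1))), W n}.Infinite
  · exact ⟨fun i => cut g (2 * i), fun a b h => cut_mono g (by omega), h0⟩
  · push Not at h0
    obtain ⟨F₀, hF₀, hF₀'⟩ := h0
    refine ⟨fun i => cut g (2 * i + 1), fun a b h => cut_mono g (by omega), fun F hF hcon => ?_⟩
    refine hA (F ∪ F₀) (hF.union hF₀) ((hF₀'.image (fun i => 2 * i)).union
      (hcon.image (fun i => 2 * i + 1)) |>.subset fun j hj => ?_)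
    rcases Nat.even_or_odd' j with ⟨i, hi | hi⟩
    · left
      refine ⟨i, ?_, hi.symm⟩
      subst hi
      exact subset_union_right.trans hj
    · right
      refine ⟨i, ?_, hi.symm⟩
      subst hi
      exact subset_union_left.trans hj

/-- the partition of a sequence without repetition by cut points -/
lemma part {X : Type} {W : ℕ → Set X} (hW : Function.Injective W) {K : ℕ → ℕ} (hK : StrictMono K)
    (hK0 : K 0 = 0) :
    (∀ i, (W '' Ico (K i) (K (i + 1))).Finite) ∧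
    (∀ i j, i ≠ j → Disjoint (W '' Ico (K i) (K (i + 1))) (W '' Ico (K j) (K (j + 1)))) ∧
    ⋃ i, W '' Ico (K i) (K (i + 1)) = range W := by
  refine ⟨fun i => (finite_Ico _ _).image _, fun i j hij => ?_, ?_⟩
  · rw [disjoint_image_iff hW, Set.disjoint_left]
    rintro n ⟨h1, h2⟩ ⟨h3, h4⟩
    rcases lt_or_gt_of_ne hij with h | h
    · have := hK.monotone (show i + 1 ≤ j by omega)
      omega
    · have := hK.monotone (show j + 1 ≤ i by omega)
      omega
  · refine Subset.antisymm (iUnion_subset fun i => image_subset_range _ _) ?_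
    rintro _ ⟨n, rfl⟩
    have hex : ∃ j, n < K (j + 1) :=
      ⟨n, lt_of_lt_of_le (Nat.lt_succ_self n) hK.le_apply⟩
    classical
    refine mem_iUnion.2 ⟨Nat.find hex, n, ⟨?_, Nat.find_spec hex⟩, rfl⟩
    rcases Nat.eq_zero_or_pos (Nat.find hex) with h | h
    · rw [h, hK0]; exact Nat.zero_le _
    · have := Nat.find_min hex (m := Nat.find hex - 1) (by omega)
      rw [not_lt] at this
      have e : Nat.find hex - 1 + 1 = Nat.find hex := by omega
      rwa [e] at this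

lemma group {X : Type} [TopologicalSpace X] {W : ℕ → Set X} (hW : Function.Injective W)
    (ho : ∀ n, IsOpen (W n)) (hne : ∀ n, W n ≠ univ) {M : ℕ → ℕ} (hM : StrictMono M)
    (hcap : ∀ F : Set X, F.Finite → {i | F ⊆ ⋃ n ∈ Ico (M i) (M (i + 1)), W n}.Infinite) :
    range W ∈ OmGp X := by
  have hcov : ∀ x : X, ∃ n, x ∈ W n := by
    intro x
    obtain ⟨i, hi⟩ := (hcap {x} (finite_singleton x)).nonempty
    obtain ⟨n, -, hn⟩ := mem_iUnion₂.1 (hi rfl)
    exact ⟨n, hn⟩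
  refine ⟨⟨⟨?_, ?_⟩, ?_⟩, ?_⟩
  · refine eq_univ_of_forall fun x => ?_
    obtain ⟨n, hn⟩ := hcov x
    exact ⟨W n, ⟨n, rfl⟩, hn⟩
  · rintro ⟨n, hn⟩; exact hne n hn
  · rintro _ ⟨n, rfl⟩; exact ho n
  by_cases hT : {i | ⋃ n ∈ Ico (M i) (M (i + 1)), W n = univ}.Infinite
  · left
    obtain ⟨t, ht, htT⟩ := extraction_of_frequently_atTop (Nat.frequently_atTop_iff_infinite.2 hT)
    let K : ℕ → ℕ := fun i => Nat.casesOn i 0 fun j => M (t j + 1)
    have hK0 : K 0 = 0 := rfl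
    have hKs : ∀ j, K (j + 1) = M (t j + 1) := fun j => rfl
    have hK : StrictMono K := by
      refine strictMono_nat_of_lt_succ fun i => ?_
      cases i with
      | zero => rw [hK0, hKs]; exact lt_of_le_of_lt (Nat.zero_le _) (hM (Nat.lt_succ_self (t 0)))
      | succ i => rw [hKs, hKs]; exact hM (by have : t i < t (i + 1) := ht (Nat.lt_succ_self i); omega)
    obtain ⟨h1, h2, h3⟩ := part hW hK hK0
    have hKt : ∀ i, K i ≤ M (t i) := by
      intro i
      cases i with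
      | zero => exact Nat.zero_le _
      | succ i => rw [hKs]; exact hM.monotone (by have : t i < t (i + 1) := ht (Nat.lt_succ_self i); omega)
    have hu : ∀ i, ⋃₀ (W '' Ico (K i) (K (i + 1))) = univ := by
      intro i
      rw [sUnion_image]
      refine eq_univ_of_univ_subset ?_
      rw [← htT i]
      exact biUnion_subset_biUnion_left fun n hn => ⟨(hKt i).trans hn.1, hn.2⟩
    have hinj : Function.Injective fun i => W '' Ico (K i) (K (i + 1)) := by
      intro i j hij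
      by_contra h
      have h4 := h2 i j h
      simp only at hij
      rw [← hij, disjoint_self] at h4
      have h5 : W (K i) ∈ W '' Ico (K i) (K (i + 1)) :=
        ⟨K i, ⟨le_rfl, hK (Nat.lt_succ_self i)⟩, rfl⟩
      rw [h4] at h5
      exact h5
    refine ⟨range fun i => W '' Ico (K i) (K (i + 1)), infinite_range_of_injective hinj, ?_, ?_, ?_⟩
    · rintro _ ⟨i, rfl⟩ _ ⟨j, rfl⟩ hij
      exact h2 i j fun h => hij (by rw [h])
    · rw [sUnion_range]; exact h3
    · rintro _ ⟨i, rfl⟩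
      refine ⟨h1 i, hu i, ?_⟩
      rintro ⟨n, -, hn⟩
      exact hne n hn
  · right
    obtain ⟨t, ht⟩ : ∃ t, ∀ i, t ≤ i → ⋃ n ∈ Ico (M i) (M (i + 1)), W n ≠ univ := by
      obtain ⟨t, ht⟩ := (not_infinite.1 hT).bddAbove
      refine ⟨t + 1, fun i hi h => ?_⟩
      have := ht h
      omega
    let K : ℕ → ℕ := fun n => if n ≤ M t then n else M (t + (n - M t))
    have hK0 : K 0 = 0 := if_pos (Nat.zero_le _)
    have hKle : ∀ n, n ≤ M t → K n = n := fun n hn => if_pos hn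
    have hKge : ∀ n, M t ≤ n → K n = M (t + (n - M t)) := by
      intro n hn
      rcases hn.eq_or_lt with rfl | hn
      · rw [hKle _ le_rfl]; simp
      · exact if_neg (by omega)
    have hK : StrictMono K := by
      refine strictMono_nat_of_lt_succ fun n => ?_
      rcases lt_or_ge n (M t) with h | h
      · rw [hKle n h.le, hKle (n + 1) h]; exact Nat.lt_succ_self n
      · rw [hKge n h, hKge (n + 1) (by omega)]; exact hM (by omega)
    obtain ⟨h1, h2, h3⟩ := part hW hK hK0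
    refine ⟨fun i => W '' Ico (K i) (K (i + 1)),
      fun i => ⟨h1 i, W (K i), K i, ⟨le_rfl, hK (Nat.lt_succ_self i)⟩, rfl⟩, h2, h3,
      ⟨⟨?_, ?_⟩, ?_⟩, fun F hF => ?_⟩
    · refine eq_univ_of_forall fun x => ?_
      obtain ⟨n, hn⟩ := hcov x
      have h4 : W n ∈ ⋃ i, W '' Ico (K i) (K (i + 1)) := by rw [h3]; exact ⟨n, rfl⟩
      obtain ⟨i, hi⟩ := mem_iUnion.1 h4
      exact ⟨_, ⟨i, rfl⟩, W n, hi, hn⟩
    · rintro ⟨n, hn⟩
      dsimp only at hn
      rw [sUnion_image] at hn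
      rcases lt_or_ge n (M t) with h | h
      · rw [hKle n h.le, hKle (n + 1) h] at hn
        refine hne n (eq_univ_of_univ_subset ?_)
        rw [← hn]
        refine iUnion₂_subset fun k hk => ?_
        have : k = n := by have := hk.1; have := hk.2; omega
        rw [this]
      · rw [hKge n h, hKge (n + 1) (by omega)] at hn
        have e : t + (n + 1 - M t) = t + (n - M t) + 1 := by omega
        rw [e] at hn
        exact ht _ (by omega) hn
    · rintro _ ⟨n, rfl⟩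
      dsimp only
      rw [sUnion_image]
      exact isOpen_biUnion fun k _ => ho k
    · obtain ⟨i, hi, hit⟩ := (hcap F hF).exists_gt t
      refine ⟨_, ⟨M t + (i - t), rfl⟩, ?_⟩
      dsimp only
      rw [sUnion_image, hKge _ (by omega), hKge _ (by omega)]
      have e1 : t + (M t + (i - t) - M t) = i := by omega
      have e2 : t + (M t + (i - t) + 1 - M t) = i + 1 := by omega
      rw [e1, e2]
      exact hi

/-- `S₁(Ω, O^{ω-gp})` -/
lemma IsLuz.omgp {L : Set ℝ} (hL : IsLuz L) : S1 (Om L) (OmGp L) := by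
  intro 𝒰 h𝒰
  obtain ⟨U, hU, hfin, htail⟩ := hL.select_all 𝒰 h𝒰
  obtain ⟨W, hW, hWU, hWt⟩ := enum U hfin htail
  have hWmem : ∀ n, ∃ m, W n ∈ 𝒰 m := by
    intro n
    have : W n ∈ range U := hWU ▸ ⟨n, rfl⟩
    obtain ⟨m, hm⟩ := this
    exact ⟨m, hm ▸ hU m⟩
  have ho : ∀ n, IsOpen (W n) := fun n => by
    obtain ⟨m, hm⟩ := hWmem n
    exact (h𝒰 m).1.2 _ hm
  have hne : ∀ n, W n ≠ univ := fun n h => by
    obtain ⟨m, hm⟩ := hWmem n
    exact (h𝒰 m).1.1.2 (h ▸ hm)
  obtain ⟨g, hg⟩ := hL.capture (fun n k => W (n + k)) (fun n k => ho _) (by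
    intro n
    refine eq_univ_of_forall fun x => ?_
    have : x ∈ ⋃ k ∈ Ici n, W k := by rw [hWt]; exact mem_univ x
    obtain ⟨k, hk, hx⟩ := mem_iUnion₂.1 this
    refine mem_iUnion.2 ⟨k - n, ?_⟩
    have e : n + (k - n) = k := by have := mem_Ici.1 hk; omega
    rw [e]
    exact hx)
  obtain ⟨M, hM, hcap⟩ := cuts W g (fun F hF => (hg F hF).mono fun n hn => by
    refine Subset.trans hn (iUnion₂_subset fun k hk => ?_)
    exact fun x hx => mem_iUnion₂.2 ⟨n + k, ⟨by omega, by have := mem_Iic.1 hk; omega⟩, hx⟩)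
  exact ⟨U, hU, hWU ▸ group hW ho hne hM hcap⟩

end Pool.Agent.K4H26.RO
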