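import Pool.Agent.K4H26.RO.Rec

set_option autoImplicit false

open Set Filter Topology

namespace Pool.Agent.K4H26.RO

open Cardinal in
/-- Under the continuum hypothesis a type with continuum many elements has a well-ordering
with countable initial segments. -/
lemma exists_wo (hCH : (aleph 1 : Cardinal.{0}) = continuum) (α : Type) (hα : #α = continuum) :
    ∃ (_ : LinearOrder α) (_ : WellFoundedLT α), ∀ a : α, (Iio a).Countable := by
  obtain ⟨r, wo, hr⟩ := Cardinal.exists_ord_eq α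
  classical
  let lo : LinearOrder α := linearOrderOfSTO r
  have hwf : WellFoundedLT α := ⟨wo.wf⟩
  refine ⟨lo, hwf, fun a => ?_⟩
  have h1 := Cardinal.card_typein_lt a hr
  rw [hα, ← hCH] at h1
  have h2 : (Ordinal.typein r a).card = #{b // r b a} := rfl
  rw [h2, ← succ_aleph0, Order.lt_succ_iff] at h1
  exact Cardinal.mk_le_aleph0_iff.1 h1

/-- The type of the indices: the code of a double sequence of open sets, the code of an open set, and
a real number. -/
def Ind : Type := (ℕ → ℕ → Set ℕ) × Set ℕ × ℝ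

/-- the code of the double sequence -/
def Ind.c1 (a : Ind) : ℕ → ℕ → Set ℕ := a.1

/-- the code of the open set -/
def Ind.c2 (a : Ind) : Set ℕ := a.2.1

/-- the real number -/
def Ind.c3 (a : Ind) : ℝ := a.2.2

lemma Ind.exists (V : ℕ → ℕ → Set ℕ) (s : Set ℕ) (r : ℝ) :
    ∃ a : Ind, a.c1 = V ∧ a.c2 = s ∧ a.c3 = r := ⟨(V, s, r), rfl, rfl, rfl⟩

open Cardinal in
lemma mk_Ind : #Ind = continuum := by
  have h1 : #(Set ℕ) = continuum := by rw [mk_set, mk_nat, two_power_aleph0]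
  have h2 : #(ℕ → Set ℕ) = continuum := by
    rw [← power_def, h1, mk_nat, continuum_power_aleph0]
  have h3 : #(ℕ → ℕ → Set ℕ) = continuum := by
    rw [← power_def, h2, mk_nat, continuum_power_aleph0]
  show #((ℕ → ℕ → Set ℕ) × Set ℕ × ℝ) = continuum
  rw [mk_prod, mk_prod]
  simp [h3, h1, mk_real]

section

variable (B : ℕ → Set ℝ)

/-- the increasing open sets of the index `a` -/
def VV (a : Ind) (n k : ℕ) : Set ℝ := ⋃ j ∈ Iic k, code B (a.c1 n j)

/-- the property of `g` in `exists_g` -/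
def Good (V : ℕ → ℕ → Set ℝ) (C : Set ℝ) (g : ℕ → ℕ) : Prop :=
  (∀ n : ℕ, ∀ i ≤ n, ∀ r ∈ Icc (-(n : ℝ)) n, ∃ x ∈ B i, x ∈ V n (g n) ∧ r - x ∈ V n (g n)) ∧
      ∀ F : Set ℝ, F.Finite → F ⊆ C → {n | F ⊆ V n (g n)}.Infinite

/-- the chosen `g` -/
noncomputable def gch (V : ℕ → ℕ → Set ℝ) (C : Set ℝ) : ℕ → ℕ :=
  Classical.epsilon fun g => Good B V C g

lemma isOpen_code (hB : ∀ i, IsOpen (B i)) (s : Set ℕ) : IsOpen (code B s) :=
  isOpen_biUnion fun i _ => hB i

lemma isOpen_VV (hB : ∀ i, IsOpen (B i)) (a : Ind) (n k : ℕ) : IsOpen (VV B a n k) :=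
  isOpen_biUnion fun _ _ => isOpen_biUnion fun i _ => hB i

lemma mono_VV (a : Ind) (n : ℕ) : Monotone (VV B a n) :=
  fun _ _ h => biUnion_subset_biUnion_left (Iic_subset_Iic.2 h)

variable [LinearOrder Ind]

/-- the points with indices before `a`, and the rational numbers -/
def pts (f : Ind → ℝ) (a : Ind) : Set ℝ :=
  range ((↑) : ℚ → ℝ) ∪ ⋃ b ∈ Iio a, {f b, b.c3 - f b}

/-- the points with indices up to `a`, and the rational numbers -/
def ptsle (f : Ind → ℝ) (a : Ind) : Set ℝ :=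
  range ((↑) : ℚ → ℝ) ∪ ⋃ b ∈ Iic a, {f b, b.c3 - f b}

/-- the requirement on the value at `a` -/
def Q (a : Ind) (f : Ind → ℝ) (y : ℝ) : Prop :=
  ∀ b < a, (Dense (code B b.c2) → y ∈ code B b.c2 ∧ a.c3 - y ∈ code B b.c2) ∧
    ∀ F : Set ℝ, F.Finite → F ⊆ pts f a → Good B (VV B b) (ptsle f b) (gch B (VV B b) (ptsle f b)) →
      {n | F ⊆ VV B b n (gch B (VV B b) (ptsle f b) n)}.Infinite →
      {n | n ∈ {n | F ⊆ VV B b n (gch B (VV B b) (ptsle f b) n)} ∧
        y ∈ VV B b n (gch B (VV B b) (ptsle f b) n) ∧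
        a.c3 - y ∈ VV B b n (gch B (VV B b) (ptsle f b) n)}.Infinite

lemma Q_loc (a : Ind) (f g : Ind → ℝ) (h : ∀ b, b < a → f b = g b) (y : ℝ) (hQ : Q B a f y) :
    Q B a g y := by
  have h1 : pts f a = pts g a := by
    unfold pts
    congr 1
    exact iUnion₂_congr fun b hb => by rw [h b hb]
  intro b hb
  have h2 : ptsle f b = ptsle g b := by
    unfold ptsle
    congr 1
    exact iUnion₂_congr fun c hc => by rw [h c (lt_of_le_of_lt hc hb)]
  have h3 := hQ b hb
  rw [h1, h2] at h3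
  exact h3

lemma countable_pts (hc : ∀ a : Ind, (Iio a).Countable) (f : Ind → ℝ) (a : Ind) :
    (pts f a).Countable :=
  (countable_range _).union ((hc a).biUnion fun _ _ => (toFinite _).countable)

lemma countable_ptsle (hc : ∀ a : Ind, (Iio a).Countable) (f : Ind → ℝ) (a : Ind) :
    (ptsle f a).Countable := by
  refine (countable_range _).union (Countable.biUnion ?_ fun _ _ => (toFinite _).countable)
  rw [← Iio_insert]
  exact (hc a).insert a

lemma Q_ex (hB : ∀ i, IsOpen (B i))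
    (hBb : ∀ U : Set ℝ, IsOpen U → U.Nonempty → ∃ i, B i ⊆ U)
    (hc : ∀ a : Ind, (Iio a).Countable) (a : Ind) (f : Ind → ℝ) : ∃ y, Q B a f y := by
  have h1 : ∀ b ∈ Iio a, {y : ℝ | Dense (code B b.c2) → y ∈ code B b.c2 ∧
      a.c3 - y ∈ code B b.c2} ∈ residual ℝ := by
    intro b _
    by_cases hd : Dense (code B b.c2)
    · have ho := isOpen_code B hB b.c2
      have h2 := residual_of_dense_open ho hd
      have h3 : ((fun y => a.c3 - y) ⁻¹' code B b.c2) ∈ residual ℝ :=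
        residual_of_dense_open (ho.preimage (by fun_prop))
          (hd.preimage (Homeomorph.subLeft a.c3).isOpenMap)
      filter_upwards [h2, h3] with y h4 h5 _ using ⟨h4, h5⟩
    · filter_upwards with y h using absurd h hd
  have h2 : ∀ b ∈ Iio a, ∀ F ∈ {F : Set ℝ | F.Finite ∧ F ⊆ pts f a},
      {y : ℝ | Good B (VV B b) (ptsle f b) (gch B (VV B b) (ptsle f b)) →
      {n | F ⊆ VV B b n (gch B (VV B b) (ptsle f b) n)}.Infinite →
      {n | n ∈ {n | F ⊆ VV B b n (gch B (VV B b) (ptsle f b) n)} ∧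
        y ∈ VV B b n (gch B (VV B b) (ptsle f b) n) ∧
        a.c3 - y ∈ VV B b n (gch B (VV B b) (ptsle f b) n)}.Infinite} ∈ residual ℝ := by
    intro b _ F _
    by_cases hg : Good B (VV B b) (ptsle f b) (gch B (VV B b) (ptsle f b))
    · by_cases hi : {n | F ⊆ VV B b n (gch B (VV B b) (ptsle f b) n)}.Infinite
      · have := residual_pair hBb (fun n => VV B b n (gch B (VV B b) (ptsle f b) n))
          (fun n => isOpen_VV B hB b n _) hg.1 _ hi a.c3
        filter_upwards [this] with y hy _ _ using hy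
      · filter_upwards with y _ h using absurd h hi
    · filter_upwards with y h using absurd h hg
  have h3 := (countable_bInter_mem (hc a)).2 h1
  have hcF : {F : Set ℝ | F.Finite ∧ F ⊆ pts f a}.Countable :=
    countable_ofPred_finite_subset (countable_pts hc f a)
  have h4 := (countable_bInter_mem (hc a)).2 fun b hb =>
    (countable_bInter_mem hcF).2 (h2 b hb)
  obtain ⟨y, hy1, hy2⟩ := (dense_of_mem_residual (inter_mem h3 h4)).nonempty
  refine ⟨y, fun b hb => ⟨?_, fun F hF hFp => ?_⟩⟩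
  · exact mem_iInter₂.1 hy1 b hb
  · exact mem_iInter₂.1 (mem_iInter₂.1 hy2 b hb) F ⟨hF, hFp⟩

lemma mem_pts_of_ptsle {f : Ind → ℝ} {a b : Ind} (h : b < a) {x : ℝ} (hx : x ∈ ptsle f b) :
    x ∈ pts f a := by
  rcases hx with hx | hx
  · exact Or.inl hx
  · obtain ⟨c, hc, hx⟩ := mem_iUnion₂.1 hx
    exact Or.inr (mem_iUnion₂.2 ⟨c, lt_of_le_of_lt hc h, hx⟩)

/-- every finite set of points is contained in `V n (g n)` for infinitely many `n` -/
lemma capture {f : Ind → ℝ} (hf : ∀ a, Q B a f (f a)) (b : Ind)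
    (hg : Good B (VV B b) (ptsle f b) (gch B (VV B b) (ptsle f b))) (F₀ : Set ℝ) (hF₀ : F₀.Finite)
    (hF₀' : F₀ ⊆ ptsle f b) (s : Finset Ind) :
    {n | F₀ ∪ ⋃ c ∈ s, {f c, c.c3 - f c} ⊆ VV B b n (gch B (VV B b) (ptsle f b) n)}.Infinite := by
  induction s using Finset.induction_on_max with
  | empty => exact hg.2 _ (by simpa using hF₀) (by simpa using hF₀')
  | insert a s hs ih =>
    have hfin : ∀ t : Finset Ind, (F₀ ∪ ⋃ c ∈ t, {f c, c.c3 - f c}).Finite := fun t =>
      hF₀.union (t.finite_toSet.biUnion fun c _ => toFinite _)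
    rcases le_or_gt a b with hab | hab
    · refine hg.2 _ (hfin _) (union_subset hF₀' ?_)
      refine iUnion₂_subset fun c hc => ?_
      have hcb : c ≤ b := by
        rcases Finset.mem_insert.1 hc with rfl | hc
        · exact hab
        · exact (hs c hc).le.trans hab
      exact fun x hx => Or.inr (mem_iUnion₂.2 ⟨c, hcb, hx⟩)
    · have hsub : F₀ ∪ ⋃ c ∈ s, {f c, c.c3 - f c} ⊆ pts f a := by
        refine union_subset (fun x hx => mem_pts_of_ptsle hab (hF₀' hx)) ?_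
        refine iUnion₂_subset fun c hc => ?_
        exact fun x hx => Or.inr (mem_iUnion₂.2 ⟨c, hs c hc, hx⟩)
      refine (((hf a b hab).2 _ (hfin s) hsub hg ih)).mono fun n hn => ?_
      obtain ⟨h1, h2, h3⟩ := hn
      refine union_subset (fun x hx => h1 (Or.inl hx)) ?_
      refine iUnion₂_subset fun c hc => ?_
      rcases Finset.mem_insert.1 hc with rfl | hc
      · rintro x (rfl | rfl)
        · exact h2
        · exact h3
      · exact fun x hx => h1 (Or.inr (mem_iUnion₂.2 ⟨c, hc, hx⟩))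

end

/-- **The set.** -/
theorem exists_luzin (hCH : (Cardinal.aleph 1 : Cardinal.{0}) = Cardinal.continuum) :
    ∃ L : Set ℝ, (∀ q : ℚ, (q : ℝ) ∈ L) ∧ (∀ r : ℝ, ∃ x ∈ L, ∃ y ∈ L, x + y = r) ∧
      (∀ G : Set ℝ, IsOpen G → Dense G → (L \ G).Countable) ∧
      ∀ V : ℕ → ℕ → Set ℝ, (∀ n k, IsOpen (V n k)) → (∀ n, Monotone (V n)) →
        (∀ n, L ⊆ ⋃ k, V n k) →
        ∃ g : ℕ → ℕ, ∀ F : Set ℝ, F.Finite → F ⊆ L → {n | F ⊆ V n (g n)}.Infinite := by
  obtain ⟨B, hB, hB', hcode, hBb⟩ := exists_basis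
  obtain ⟨lo, wf, hc⟩ := exists_wo hCH Ind mk_Ind
  obtain ⟨f, hf⟩ := exists_rec (α := Ind) (β := ℝ) (· < ·) wf.wf (Q B) (Q_loc B)
    (Q_ex B hB hBb hc)
  obtain ⟨L, hL⟩ : ∃ L : Set ℝ, L = range ((↑) : ℚ → ℝ) ∪ ⋃ a : Ind, {f a, a.c3 - f a} :=
    ⟨_, rfl⟩
  have hQL : ∀ q : ℚ, (q : ℝ) ∈ L := fun q => by rw [hL]; exact Or.inl ⟨q, rfl⟩
  have hle : ∀ b, ptsle f b ⊆ L := by
    intro b
    rw [hL]
    exact union_subset_union_right _ (iUnion₂_subset fun c _ =>
      subset_iUnion (fun a : Ind => ({f a, a.c3 - f a} : Set ℝ)) c)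
  refine ⟨L, hQL, fun r => ?_, fun G hG hGd => ?_, fun V hV hVm hVL => ?_⟩
  · obtain ⟨a, -, -, ha⟩ := Ind.exists (fun _ _ => ∅) ∅ r
    refine ⟨f a, ?_, r - f a, ?_, by ring⟩
    · rw [hL]; exact Or.inr (mem_iUnion.2 ⟨a, Or.inl rfl⟩)
    · rw [hL]; exact Or.inr (mem_iUnion.2 ⟨a, Or.inr (by rw [ha]; rfl)⟩)
  · obtain ⟨s, hs⟩ := hcode G hG
    obtain ⟨b, -, hb, -⟩ := Ind.exists (fun _ _ => ∅) s 0
    refine (countable_ptsle hc f b).mono fun x hx => ?_
    obtain ⟨hxL, hxG⟩ := hx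
    rw [hL] at hxL
    rcases hxL with hx | hx
    · exact Or.inl hx
    · obtain ⟨a, ha⟩ := mem_iUnion.1 hx
      by_contra hcon
      have hab : b < a := by
        by_contra h
        exact hcon (Or.inr (mem_iUnion₂.2 ⟨a, not_lt.1 h, ha⟩))
      have h1 := (hf a b hab).1 (by rw [hb, hs]; exact hGd)
      rw [hb, hs] at h1
      rcases ha with rfl | rfl
      · exact hxG h1.1
      · exact hxG h1.2
  · choose s hs using fun n k => hcode (V n k) (hV n k)
    obtain ⟨b, hb, -, -⟩ := Ind.exists s ∅ 0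
    have hVV : VV B b = V := by
      funext n k
      unfold VV
      rw [hb]
      simp only [hs]
      refine Subset.antisymm (iUnion₂_subset fun j hj => hVm n hj) ?_
      exact fun x hx => mem_iUnion₂.2 ⟨k, mem_Iic.2 le_rfl, hx⟩
    have hg : Good B (VV B b) (ptsle f b) (gch B (VV B b) (ptsle f b)) := by
      refine Classical.epsilon_spec (p := fun g => Good B (VV B b) (ptsle f b) g) ?_
      rw [hVV]
      refine exists_g hB hB' V hV hVm (ptsle f b) (countable_ptsle hc f b) ?_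
        (fun n => (hle b).trans (hVL n))
      exact Rat.denseRange_cast.mono subset_union_left
    refine ⟨gch B (VV B b) (ptsle f b), fun F hF hFL => ?_⟩
    have h1 : ∀ x ∈ F, ∃ t : Finset Ind, x ∈ range ((↑) : ℚ → ℝ) ∪ ⋃ c ∈ t, {f c, c.c3 - f c} := by
      intro x hx
      have := hFL hx
      rw [hL] at this
      rcases this with h | h
      · exact ⟨∅, Or.inl h⟩
      · obtain ⟨a, ha⟩ := mem_iUnion.1 h
        exact ⟨{a}, Or.inr (mem_iUnion₂.2 ⟨a, Finset.mem_singleton_self a, ha⟩)⟩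
    choose! t ht using h1
    classical
    have h2 := capture B hf b hg (F ∩ range ((↑) : ℚ → ℝ)) (hF.inter_of_left _)
      (fun x hx => Or.inl hx.2) (hF.toFinset.biUnion t)
    rw [hVV] at h2 ⊢
    refine h2.mono fun n hn x hx => ?_
    rw [mem_ofPred_eq] at hn
    refine hn ?_
    rcases ht x hx with h | h
    · exact Or.inl ⟨hx, h⟩
    · obtain ⟨c, hc, hxc⟩ := mem_iUnion₂.1 h
      exact Or.inr (mem_iUnion₂.2 ⟨c, Finset.mem_biUnion.2 ⟨x, hF.mem_toFinset.2 hx, hc⟩, hxc⟩)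

end Pool.Agent.K4H26.RO
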