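import Mathlib

/-!
# A Luzin set with a property of Menger type, from the continuum hypothesis

`L + L = ℝ`, every dense open set contains all but countably many points of `L`, and for all open
sets `V n k`, increasing in `k` and covering `L`, there is `g` such that every finite subset of `L` is
contained in `V n (g n)` for infinitely many `n`.
-/

set_option autoImplicit false

open Set Filter Topology

namespace Pool.Agent.K4H26.RO

/-- recursion along a well-founded relation, with a requirement that only depends on the earlier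
values -/
lemma exists_rec {α β : Type} [Nonempty β] (r : α → α → Prop) (hr : WellFounded r)
    (Q : α → (α → β) → β → Prop)
    (hloc : ∀ a f g, (∀ b, r b a → f b = g b) → ∀ y, Q a f y → Q a g y)
    (hex : ∀ a f, ∃ y, Q a f y) : ∃ f : α → β, ∀ a, Q a f (f a) := by
  classical
  let ext : (a : α) → ((b : α) → r b a → β) → (α → β) := fun a ih b =>
    if h : r b a then ih b h else Classical.arbitrary β
  let F : (a : α) → ((b : α) → r b a → β) → β := fun a ih => Classical.choose (hex a (ext a ih))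
  refine ⟨hr.fix F, fun a => ?_⟩
  have h1 : hr.fix F a = F a (fun b _ => hr.fix F b) := hr.fix_eq F a
  have h2 : Q a (ext a (fun b _ => hr.fix F b)) (F a (fun b _ => hr.fix F b)) :=
    Classical.choose_spec (hex a (ext a (fun b _ => hr.fix F b)))
  rw [h1]
  refine hloc a _ _ (fun b hb => ?_) _ h2
  show (if h : r b a then hr.fix F b else Classical.arbitrary β) = hr.fix F b
  rw [dif_pos hb]

/-- If the `V k` increase and their union is open and dense, then one of them is so large that it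
meets its own reflection `r - V k` in the open set `B`, for all `r` in a compact set. -/
lemma exists_refl {V : ℕ → Set ℝ} (hV : ∀ k, IsOpen (V k)) (hm : Monotone V)
    (hd : Dense (⋃ k, V k)) {B K : Set ℝ} (hB : IsOpen B) (hB' : B.Nonempty) (hK : IsCompact K) :
    ∃ k, ∀ r ∈ K, ∃ x ∈ B, x ∈ V k ∧ r - x ∈ V k := by
  let O : ℕ → Set ℝ := fun k => {r | ∃ x ∈ B, x ∈ V k ∧ r - x ∈ V k}
  have hO : ∀ k, IsOpen (O k) := by
    intro k
    have : O k = ⋃ x ∈ B ∩ V k, (fun r => r - x) ⁻¹' V k := by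
      ext r
      simp only [O, mem_setOf_eq, mem_iUnion, mem_preimage, exists_prop, mem_inter_iff]
      constructor
      · rintro ⟨x, h1, h2, h3⟩; exact ⟨x, ⟨h1, h2⟩, h3⟩
      · rintro ⟨x, ⟨h1, h2⟩, h3⟩; exact ⟨x, h1, h2, h3⟩
    rw [this]
    exact isOpen_biUnion fun x _ => (hV k).preimage (by fun_prop)
  have hOm : Monotone O := by
    intro k l hkl r ⟨x, h1, h2, h3⟩
    exact ⟨x, h1, hm hkl h2, hm hkl h3⟩
  have hcov : K ⊆ ⋃ k, O k := by
    intro r _
    have ho : IsOpen (⋃ k, V k) := isOpen_iUnion hV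
    have hd2 : Dense ((fun x => r - x) ⁻¹' (⋃ k, V k)) :=
      hd.preimage (Homeomorph.subLeft r).isOpenMap
    have hd3 : Dense ((⋃ k, V k) ∩ (fun x => r - x) ⁻¹' (⋃ k, V k)) :=
      hd.inter_of_isOpen_left hd2 ho
    obtain ⟨x, hxB, hx1, hx2⟩ := hd3.inter_open_nonempty B hB hB'
    rw [mem_preimage] at hx2
    obtain ⟨k, hk⟩ := mem_iUnion.1 hx1
    obtain ⟨l, hl⟩ := mem_iUnion.1 hx2
    exact mem_iUnion.2 ⟨max k l, x, hxB, hm (le_max_left _ _) hk, hm (le_max_right _ _) hl⟩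
  obtain ⟨k, hk⟩ := hK.elim_directed_cover O hO hcov (hOm.directed_le)
  exact ⟨k, fun r hr => hk hr⟩

/-- The open set coded by a set of indices of basic sets. -/
def code (B : ℕ → Set ℝ) (s : Set ℕ) : Set ℝ := ⋃ i ∈ s, B i

lemma exists_basis : ∃ B : ℕ → Set ℝ, (∀ i, IsOpen (B i)) ∧ (∀ i, (B i).Nonempty) ∧
    (∀ U : Set ℝ, IsOpen U → ∃ s, code B s = U) ∧
    (∀ U : Set ℝ, IsOpen U → U.Nonempty → ∃ i, B i ⊆ U) := by
  have hbb := TopologicalSpace.isBasis_countableBasis ℝ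
  have hc := TopologicalSpace.countable_countableBasis ℝ
  have hne : (TopologicalSpace.countableBasis ℝ).Nonempty := by
    obtain ⟨v, hv, -, -⟩ := hbb.exists_subset_of_mem_open (mem_univ (0 : ℝ)) isOpen_univ
    exact ⟨v, hv⟩
  obtain ⟨B, hB⟩ := hc.exists_eq_range hne
  have hBmem : ∀ i, B i ∈ TopologicalSpace.countableBasis ℝ := fun i => by rw [hB]; exact ⟨i, rfl⟩
  refine ⟨B, fun i => hbb.isOpen (hBmem i), fun i => ?_, fun U hU => ?_, fun U hU ⟨x, hx⟩ => ?_⟩
  · rw [nonempty_iff_ne_empty]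
    exact fun h => TopologicalSpace.empty_notMem_countableBasis ℝ (h ▸ hBmem i)
  · refine ⟨{i | B i ⊆ U}, ?_⟩
    ext x
    simp only [code, mem_iUnion, exists_prop, mem_setOf_eq]
    constructor
    · rintro ⟨i, h1, h2⟩; exact h1 h2
    · intro hx
      obtain ⟨v, hv, hxv, hvU⟩ := hbb.exists_subset_of_mem_open hx hU
      rw [hB] at hv
      obtain ⟨i, rfl⟩ := hv
      exact ⟨i, hvU, hxv⟩
  · obtain ⟨v, hv, hxv, hvU⟩ := hbb.exists_subset_of_mem_open hx hU
    rw [hB] at hv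
    obtain ⟨i, rfl⟩ := hv
    exact ⟨i, hvU⟩

/-- The choice of the function `g` for increasing open sets `V n k` and a countable set `C`. -/
lemma exists_g {B : ℕ → Set ℝ} (hB : ∀ i, IsOpen (B i)) (hB' : ∀ i, (B i).Nonempty)
    (V : ℕ → ℕ → Set ℝ) (hV : ∀ n k, IsOpen (V n k)) (hm : ∀ n, Monotone (V n))
    (C : Set ℝ) (hC : C.Countable) (hCd : Dense C) (hCV : ∀ n, C ⊆ ⋃ k, V n k) :
    ∃ g : ℕ → ℕ, (∀ n : ℕ, ∀ i ≤ n, ∀ r ∈ Icc (-(n : ℝ)) n,
        ∃ x ∈ B i, x ∈ V n (g n) ∧ r - x ∈ V n (g n)) ∧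
      ∀ F : Set ℝ, F.Finite → F ⊆ C → {n | F ⊆ V n (g n)}.Infinite := by
  obtain ⟨c, hc⟩ := hC.exists_eq_range hCd.nonempty
  have hcC : ∀ j, c j ∈ C := fun j => by rw [hc]; exact ⟨j, rfl⟩
  have h1 : ∀ n : ℕ, ∀ i : ℕ, ∃ k, ∀ r ∈ Icc (-(n : ℝ)) n, ∃ x ∈ B i, x ∈ V n k ∧ r - x ∈ V n k :=
    fun n i => exists_refl (hV n) (hm n) (hCd.mono (hCV n)) (hB i) (hB' i) isCompact_Icc
  choose k1 hk1 using h1
  have h2 : ∀ n j : ℕ, ∃ k, c j ∈ V n k := fun n j => mem_iUnion.1 (hCV n (hcC j))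
  choose k2 hk2 using h2
  refine ⟨fun n => (Finset.range (n + 1)).sup (k1 n) ⊔ (Finset.range (n + 1)).sup (k2 n),
    fun n i hi r hr => ?_, fun F hF hFC => ?_⟩
  · obtain ⟨x, h1, h2, h3⟩ := hk1 n i r hr
    have hle : k1 n i ≤ (Finset.range (n + 1)).sup (k1 n) ⊔ (Finset.range (n + 1)).sup (k2 n) :=
      (Finset.le_sup (f := k1 n) (Finset.mem_range.2 (by omega))).trans le_sup_left
    exact ⟨x, h1, hm n hle h2, hm n hle h3⟩
  · have h3 : ∀ x ∈ F, ∃ j, c j = x := fun x hx => by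
      have := hFC hx
      rwa [hc] at this
    choose! j hj using h3
    obtain ⟨N, hN⟩ : ∃ N, ∀ x ∈ F, j x ≤ N := by
      obtain ⟨N, hN⟩ := (hF.image j).bddAbove
      exact ⟨N, fun x hx => hN ⟨x, hx, rfl⟩⟩
    refine (Set.Ici_infinite N).mono fun n hn x hx => ?_
    have hn' : N ≤ n := hn
    have hle : k2 n (j x) ≤ (Finset.range (n + 1)).sup (k1 n) ⊔ (Finset.range (n + 1)).sup (k2 n) :=
      (Finset.le_sup (f := k2 n) (Finset.mem_range.2 (by have := hN x hx; omega))).trans le_sup_right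
    have := hm n hle (hk2 n (j x))
    rwa [hj x hx] at this

/-- The set of all `x` such that `x` and `r - x` are in `V n` for infinitely many `n ∈ A`. -/
lemma residual_pair {B : ℕ → Set ℝ} (hBb : ∀ U : Set ℝ, IsOpen U → U.Nonempty → ∃ i, B i ⊆ U)
    (V : ℕ → Set ℝ) (hV : ∀ n, IsOpen (V n))
    (hP : ∀ n : ℕ, ∀ i ≤ n, ∀ r ∈ Icc (-(n : ℝ)) n, ∃ x ∈ B i, x ∈ V n ∧ r - x ∈ V n)
    (A : Set ℕ) (hA : A.Infinite) (r : ℝ) :
    {x | {n | n ∈ A ∧ x ∈ V n ∧ r - x ∈ V n}.Infinite} ∈ residual ℝ := by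
  have h1 : ∀ m : ℕ, (⋃ n ∈ {n | n ∈ A ∧ m ≤ n}, (V n ∩ (fun x => r - x) ⁻¹' V n)) ∈
      residual ℝ := by
    intro m
    refine residual_of_dense_open (isOpen_biUnion fun n _ =>
      (hV n).inter ((hV n).preimage (by fun_prop))) ?_
    rw [dense_iff_inter_open]
    intro U hU hUne
    obtain ⟨i, hi⟩ := hBb U hU hUne
    obtain ⟨N, hN⟩ := exists_nat_ge |r|
    obtain ⟨n, hnA, hn⟩ := hA.exists_gt (max (max m i) N)
    have hn1 : m ≤ n := by
      have := le_max_left (max m i) N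
      have := le_max_left m i
      omega
    have hn2 : i ≤ n := by
      have := le_max_left (max m i) N
      have := le_max_right m i
      omega
    have hn3 : N ≤ n := by
      have := le_max_right (max m i) N
      omega
    have hr : r ∈ Icc (-(n : ℝ)) n := by
      have h2 : |r| ≤ n := hN.trans (by exact_mod_cast hn3)
      exact abs_le.1 h2
    obtain ⟨x, hx1, hx2, hx3⟩ := hP n i hn2 r hr
    exact ⟨x, hi hx1, mem_biUnion (show n ∈ {n | n ∈ A ∧ m ≤ n} from ⟨hnA, hn1⟩) ⟨hx2, hx3⟩⟩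
  have h2 : (⋂ m : ℕ, ⋃ n ∈ {n | n ∈ A ∧ m ≤ n}, (V n ∩ (fun x => r - x) ⁻¹' V n)) ∈
      residual ℝ := countable_iInter_mem.2 h1
  refine mem_of_superset h2 fun x hx => ?_
  rw [mem_setOf_eq]
  refine Set.infinite_of_forall_exists_gt fun m => ?_
  have h3 := mem_iInter.1 hx (m + 1)
  simp only [mem_iUnion, exists_prop, mem_setOf_eq, mem_inter_iff, mem_preimage] at h3
  obtain ⟨n, ⟨h4, h5⟩, h6, h7⟩ := h3
  exact ⟨n, ⟨h4, h6, h7⟩, by omega⟩

end Pool.Agent.K4H26.RO
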