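import Pool.Agent.K4H26.RO.Luz

/-!
# Selection principles
-/

set_option autoImplicit false

open Set Filter Topology

namespace Pool.Agent.K4H26.RO

section

variable (X : Type)

/-- A cover of `X`: a family of subsets of `X` whose union is `X`. By convention `X` is not a
member. -/
def IsCov {X : Type} (𝒰 : Set (Set X)) : Prop := ⋃₀ 𝒰 = univ ∧ univ ∉ 𝒰

/-- The open covers of `X`. -/
def Op [TopologicalSpace X] : Set (Set (Set X)) := {𝒰 | IsCov 𝒰 ∧ ∀ U ∈ 𝒰, IsOpen U}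

/-- The open `ω`-covers of `X`: every finite subset of `X` is contained in some member. -/
def Om [TopologicalSpace X] : Set (Set (Set X)) :=
  {𝒰 | 𝒰 ∈ Op X ∧ ∀ F : Set X, F.Finite → ∃ U ∈ 𝒰, F ⊆ U}

/-- A cover is multifinite if it can be partitioned into infinitely many finite covers. -/
def Multifinite {X : Type} (𝒰 : Set (Set X)) : Prop :=
  ∃ P : Set (Set (Set X)), P.Infinite ∧ P.PairwiseDisjoint id ∧ ⋃₀ P = 𝒰 ∧
    ∀ 𝓕 ∈ P, 𝓕.Finite ∧ IsCov 𝓕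

/-- The open `ω`-groupable covers of `X`: the open covers which are multifinite, or have a partition
into nonempty finite sets `𝓕 n` such that the unions `⋃ 𝓕 n` form an `ω`-cover. -/
def OmGp [TopologicalSpace X] : Set (Set (Set X)) :=
  {𝒰 | 𝒰 ∈ Op X ∧ (Multifinite 𝒰 ∨ ∃ 𝓕 : ℕ → Set (Set X), (∀ n, (𝓕 n).Finite ∧ (𝓕 n).Nonempty) ∧
    (∀ m n, m ≠ n → Disjoint (𝓕 m) (𝓕 n)) ∧ ⋃ n, 𝓕 n = 𝒰 ∧ range (fun n => ⋃₀ 𝓕 n) ∈ Om X)}

/-- The selection principle `S₁(A, B)`. -/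
def S1 {X : Type} (A B : Set (Set (Set X))) : Prop :=
  ∀ 𝒰 : ℕ → Set (Set X), (∀ n, 𝒰 n ∈ A) → ∃ U : ℕ → Set X, (∀ n, U n ∈ 𝒰 n) ∧ range U ∈ B

/-- The selection principle `U_fin(O, Ω)`. -/
def UfinOm [TopologicalSpace X] : Prop :=
  ∀ 𝒰 : ℕ → Set (Set X), (∀ n, 𝒰 n ∈ Op X) → ∃ 𝓕 : ℕ → Set (Set X),
    (∀ n, (𝓕 n).Finite ∧ 𝓕 n ⊆ 𝒰 n) ∧
      (range (fun n => ⋃₀ 𝓕 n) ∈ Om X ∨ ∃ n, ⋃₀ 𝓕 n = univ)

end

/-- the properties of the set of `exists_luzin` -/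
structure IsLuz (L : Set ℝ) : Prop where
  rat : ∀ q : ℚ, (q : ℝ) ∈ L
  sum : ∀ r : ℝ, ∃ x ∈ L, ∃ y ∈ L, x + y = r
  luz : ∀ G : Set ℝ, IsOpen G → Dense G → (L \ G).Countable
  cap : ∀ V : ℕ → ℕ → Set ℝ, (∀ n k, IsOpen (V n k)) → (∀ n, Monotone (V n)) →
        (∀ n, L ⊆ ⋃ k, V n k) →
        ∃ g : ℕ → ℕ, ∀ F : Set ℝ, F.Finite → F ⊆ L → {n | F ⊆ V n (g n)}.Infinite

variable {L : Set ℝ} (hL : IsLuz L)
include hL

/-- a family of relatively open sets which contain all the rational numbers covers all but countably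
many points -/
lemma IsLuz.countable_compl {U : Set L} (hU : IsOpen U) (h : ∀ q : ℚ, (⟨q, hL.rat q⟩ : L) ∈ U) :
    Uᶜ.Countable := by
  obtain ⟨O, hO, rfl⟩ := isOpen_induced_iff.1 hU
  have hd : Dense O := Rat.denseRange_cast.mono (by
    rintro _ ⟨q, rfl⟩
    exact h q)
  have h1 := hL.luz O hO hd
  have h2 : ((↑) : L → ℝ) '' ((↑) ⁻¹' O)ᶜ ⊆ L \ O := by
    rintro _ ⟨x, hx, rfl⟩
    exact ⟨x.2, hx⟩
  exact countable_of_injective_of_countable_image Subtype.coe_injective.injOn (h1.mono h2)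

/-- the set is a Rothberger space -/
lemma IsLuz.rothberger : S1 (Op L) (Op L) := by
  intro 𝒰 h𝒰
  have hpick : ∀ (n : ℕ) (x : L), ∃ U ∈ 𝒰 n, x ∈ U := by
    intro n x
    have : x ∈ ⋃₀ 𝒰 n := by rw [(h𝒰 n).1.1]; exact mem_univ x
    obtain ⟨U, hU, hx⟩ := this
    exact ⟨U, hU, hx⟩
  choose P hP hxP using hpick
  obtain ⟨e, he⟩ : ∃ e : ℕ → ℚ, Function.Surjective e := exists_surjective_nat ℚ
  let O : Set L := ⋃ i : ℕ, P (2 * i) ⟨e i, hL.rat (e i)⟩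
  have hO : IsOpen O := isOpen_iUnion fun i => (h𝒰 _).2 _ (hP _ _)
  have hOq : ∀ q : ℚ, (⟨q, hL.rat q⟩ : L) ∈ O := by
    intro q
    obtain ⟨i, rfl⟩ := he q
    exact mem_iUnion.2 ⟨i, hxP _ _⟩
  have hc := hL.countable_compl hO hOq
  have hc' : (insert (⟨((0 : ℚ) : ℝ), hL.rat 0⟩ : L) Oᶜ).Countable := hc.insert _
  obtain ⟨d, hd⟩ := hc'.exists_eq_range (insert_nonempty _ _)
  refine ⟨fun n => if n % 2 = 0 then P n ⟨e (n / 2), hL.rat _⟩ else P n (d (n / 2)),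
    fun n => ?_, ⟨?_, ?_⟩, ?_⟩
  · dsimp only
    split_ifs
    · exact hP _ _
    · exact hP _ _
  · refine eq_univ_of_forall fun x => ?_
    by_cases hx : x ∈ O
    · obtain ⟨i, hi⟩ := mem_iUnion.1 hx
      refine ⟨_, ⟨2 * i, rfl⟩, ?_⟩
      dsimp only
      rw [if_pos (by omega)]
      have : 2 * i / 2 = i := by omega
      rw [this]
      exact hi
    · have hx' : x ∈ insert (⟨((0 : ℚ) : ℝ), hL.rat 0⟩ : L) Oᶜ := Or.inr hx
      rw [hd] at hx'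
      obtain ⟨i, rfl⟩ := hx'
      refine ⟨_, ⟨2 * i + 1, rfl⟩, ?_⟩
      dsimp only
      rw [if_neg (by omega)]
      have : (2 * i + 1) / 2 = i := by omega
      rw [this]
      exact hxP _ _
  · rintro ⟨n, hn⟩
    dsimp only at hn
    split_ifs at hn
    · exact (h𝒰 n).1.2 (hn ▸ hP _ _)
    · exact (h𝒰 n).1.2 (hn ▸ hP _ _)
  · rintro _ ⟨n, rfl⟩
    dsimp only
    split_ifs
    · exact (h𝒰 _).2 _ (hP _ _)
    · exact (h𝒰 _).2 _ (hP _ _)

/-- the capture property for relatively open sets -/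
lemma IsLuz.capture (W : ℕ → ℕ → Set L) (hW : ∀ n k, IsOpen (W n k))
    (hcov : ∀ n, ⋃ k, W n k = univ) :
    ∃ g : ℕ → ℕ, ∀ F : Set L, F.Finite → {n | F ⊆ ⋃ k ∈ Iic (g n), W n k}.Infinite := by
  choose O hO hOW using fun n k => isOpen_induced_iff.1 (hW n k)
  obtain ⟨g, hg⟩ := hL.cap (fun n k => ⋃ j ∈ Iic k, O n j)
    (fun n k => isOpen_biUnion fun j _ => hO n j)
    (fun n => fun _ _ h => biUnion_subset_biUnion_left (Iic_subset_Iic.2 h)) (by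
      intro n x hx
      have : (⟨x, hx⟩ : L) ∈ ⋃ k, W n k := by rw [hcov]; exact mem_univ _
      obtain ⟨k, hk⟩ := mem_iUnion.1 this
      rw [← hOW] at hk
      exact mem_iUnion.2 ⟨k, mem_iUnion₂.2 ⟨k, mem_Iic.2 le_rfl, hk⟩⟩)
  refine ⟨g, fun F hF => (hg ((↑) '' F) (hF.image _) ?_).mono fun n hn x hx => ?_⟩
  · rintro _ ⟨x, -, rfl⟩; exact x.2
  · obtain ⟨k, hk, hxk⟩ := mem_iUnion₂.1 (hn ⟨x, hx, rfl⟩)
    refine mem_iUnion₂.2 ⟨k, hk, ?_⟩
    rw [← hOW]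
    exact hxk

/-- `U_fin(O, Ω)` -/
lemma IsLuz.ufin : UfinOm L := by
  intro 𝒰 h𝒰
  have h1 : ∀ n, ∃ W : ℕ → Set L, (∀ k, W k ∈ 𝒰 n) ∧ ⋃ k, W k = univ := by
    intro n
    obtain ⟨T, hT, hTc, hTu⟩ := TopologicalSpace.isOpen_sUnion_countable (𝒰 n) (h𝒰 n).2
    rw [(h𝒰 n).1.1] at hTu
    have hne : T.Nonempty := by
      rw [nonempty_iff_ne_empty]
      rintro rfl
      rw [sUnion_empty] at hTu
      have : (⟨((0 : ℚ) : ℝ), hL.rat 0⟩ : L) ∈ (∅ : Set L) := by rw [hTu]; exact mem_univ _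
      exact this
    obtain ⟨W, rfl⟩ := hT.exists_eq_range hne
    exact ⟨W, fun k => hTc ⟨k, rfl⟩, by rw [← sUnion_range]; exact hTu⟩
  choose W hW hWu using h1
  obtain ⟨g, hg⟩ := hL.capture W (fun n k => (h𝒰 n).2 _ (hW n k)) hWu
  refine ⟨fun n => W n '' Iic (g n), fun n => ⟨(finite_Iic _).image _, ?_⟩, ?_⟩
  · rintro _ ⟨k, -, rfl⟩; exact hW n k
  · have h2 : ∀ n, ⋃₀ (W n '' Iic (g n)) = ⋃ k ∈ Iic (g n), W n k := fun n => sUnion_image _ _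
    by_cases h : ∃ n, ⋃₀ (W n '' Iic (g n)) = univ
    · exact Or.inr h
    · left
      push Not at h
      refine ⟨⟨⟨?_, ?_⟩, ?_⟩, fun F hF => ?_⟩
      · refine eq_univ_of_forall fun x => ?_
        obtain ⟨n, hn⟩ := (hg {x} (finite_singleton x)).nonempty
        refine ⟨_, ⟨n, rfl⟩, ?_⟩
        dsimp only
        rw [h2]
        exact hn rfl
      · rintro ⟨n, hn⟩
        exact h n hn
      · rintro _ ⟨n, rfl⟩
        dsimp only
        rw [h2]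
        exact isOpen_biUnion fun k _ => (h𝒰 n).2 _ (hW n k)
      · obtain ⟨n, hn⟩ := (hg F hF).nonempty
        refine ⟨_, ⟨n, rfl⟩, ?_⟩
        dsimp only
        rw [h2]
        exact hn

open MeasureTheory Pointwise in
/-- the sum of the set with itself is too large for `S₁(Ω, Ω)` -/
lemma IsLuz.not_S1 : ¬ S1 (Om L) (Om L) := by
  intro h
  obtain ⟨ε, hε, hεs⟩ := ENNReal.exists_pos_sum_of_countable' (ε := 1) one_ne_zero ℕ
  have hfin : ∀ (n : ℕ) (F : Set L), F.Finite → ∃ O : Set ℝ, IsOpen O ∧ F ⊆ (↑) ⁻¹' O ∧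
      volume (O + O) ≤ ε n := by
    intro n F hF
    have hF' : (((↑) : L → ℝ) '' F).Finite := hF.image _
    have h0 : volume ((((↑) : L → ℝ) '' F) + (((↑) : L → ℝ) '' F)) = 0 :=
      (hF'.add hF').measure_zero _
    obtain ⟨V, hFV, hV, hVε⟩ := Set.exists_isOpen_le_add
      ((((↑) : L → ℝ) '' F) + (((↑) : L → ℝ) '' F)) volume (hε n).ne'
    rw [h0, zero_add] at hVε
    obtain ⟨u, v, hu, hv, hFu, hFv, huv⟩ := generalized_tube_lemma hF'.isCompact hF'.isCompact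
      (hV.preimage (continuous_fst.add continuous_snd : Continuous fun p : ℝ × ℝ => p.1 + p.2))
      (by
        rintro ⟨a, b⟩ ⟨ha, hb⟩
        exact hFV (add_mem_add ha hb))
    refine ⟨u ∩ v, hu.inter hv, fun x hx => ⟨hFu ⟨x, hx, rfl⟩, hFv ⟨x, hx, rfl⟩⟩, ?_⟩
    refine (measure_mono ?_).trans hVε
    rintro _ ⟨a, ha, b, hb, rfl⟩
    exact huv (mk_mem_prod ha.1 hb.2)
  obtain ⟨U, hU, hUr⟩ := h (fun n => {U : Set L | ∃ O : Set ℝ, IsOpen O ∧ U = (↑) ⁻¹' O ∧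
      volume (O + O) ≤ ε n}) (by
    intro n
    refine ⟨⟨⟨?_, ?_⟩, ?_⟩, ?_⟩
    · refine eq_univ_of_forall fun x => ?_
      obtain ⟨O, h1, h2, h3⟩ := hfin n {x} (finite_singleton x)
      exact ⟨_, ⟨O, h1, rfl, h3⟩, h2 rfl⟩
    · rintro ⟨O, -, h2, h3⟩
      have h4 : L ⊆ O := fun x hx => by
        have : (⟨x, hx⟩ : L) ∈ (univ : Set L) := mem_univ _
        rw [h2] at this
        exact this
      have h5 : O + O = univ := by
        refine eq_univ_of_forall fun r => ?_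
        obtain ⟨x, hx, y, hy, rfl⟩ := hL.sum r
        exact add_mem_add (h4 hx) (h4 hy)
      rw [h5, Real.volume_univ, top_le_iff] at h3
      have h6 : ε n ≤ ∑' i, ε i := ENNReal.le_tsum n
      rw [h3] at h6
      exact absurd (h6.trans_lt hεs) (by simp)
    · rintro _ ⟨O, h1, rfl, -⟩
      exact h1.preimage continuous_subtype_val
    · intro F hF
      obtain ⟨O, h1, h2, h3⟩ := hfin n F hF
      exact ⟨_, ⟨O, h1, rfl, h3⟩, h2⟩)
  choose O hO hUO hOε using hU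
  have h1 : (univ : Set ℝ) ⊆ ⋃ n, (O n + O n) := by
    intro r _
    obtain ⟨x, hx, y, hy, rfl⟩ := hL.sum r
    obtain ⟨V, ⟨n, rfl⟩, hV⟩ := hUr.2 {⟨x, hx⟩, ⟨y, hy⟩} (toFinite _)
    rw [hUO] at hV
    exact mem_iUnion.2 ⟨n, add_mem_add (hV (Or.inl rfl)) (hV (Or.inr rfl))⟩
  have h2 : volume (univ : Set ℝ) ≤ ∑' n, ε n :=
    (measure_mono h1).trans ((measure_iUnion_le _).trans (ENNReal.tsum_le_tsum hOε))
  rw [Real.volume_univ] at h2
  exact absurd (h2.trans_lt hεs) (by simp)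

end Pool.Agent.K4H26.RO
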